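import Mathlib
set_option autoImplicit false
namespace Pool.Agent.Results.MP_c4ae4c_al.Only
open Polynomial Matrix
open scoped commutatorElement

/-- `w(x, y)`. -/
def op {G : Type} [Group G] (w : FreeGroup (Fin 2)) (x y : G) : G := FreeGroup.lift ![x, y] w

/-- `x * y = w(x, y)` is a group operation on the set `G`. -/
def IsGroupLaw (G : Type) [Group G] (w : FreeGroup (Fin 2)) : Prop :=
  (∀ x y z : G, op w (op w x y) z = op w x (op w y z)) ∧
    ∃ e : G, (∀ x, op w e x = x ∧ op w x e = x) ∧ ∀ x, ∃ y, op w x y = e ∧ op w y x = e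

/-- Property (N); `lowerCentralSeries (k - 1)` is `γ_k`. -/
def PropN (w : FreeGroup (Fin 2)) : Prop :=
  ∀ n k : ℕ, 2 ≤ n → 1 ≤ k →
    IsGroupLaw (FreeGroup (Fin n) ⧸ (⊤ : Subgroup (FreeGroup (Fin n))).lowerCentralSeries (k - 1)) w

lemma map_op {G H : Type} [Group G] [Group H] (f : G →* H) (w : FreeGroup (Fin 2)) (x y : G) :
    f (op w x y) = op w (f x) (f y) := by
  have : f.comp (FreeGroup.lift ![x, y]) = FreeGroup.lift ![f x, f y] :=
    FreeGroup.ext_hom _ _ fun i => by fin_cases i <;> simp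
  exact DFunLike.congr_fun this w

def Good : List (ℤ × ℤ) → Prop
  | [] => True
  | p :: L => p.1 ≠ 0 ∧ (L ≠ [] → p.2 ≠ 0) ∧ Good L

def ev {G : Type} [Group G] (x y : G) (a : ℤ) (L : List (ℤ × ℤ)) : G :=
  x ^ a * (L.map fun p => y ^ p.1 * x ^ p.2).prod

lemma nf (w : FreeGroup (Fin 2)) : ∃ a L, Good L ∧ w = ev (.of 0) (.of 1) a L := by
  have step : ∀ (i : Fin 2) (e : ℤ), e ≠ 0 → ∀ w : FreeGroup (Fin 2),
      (∃ a L, Good L ∧ w = ev (.of 0) (.of 1) a L) →
      ∃ a L, Good L ∧ FreeGroup.of i ^ e * w = ev (.of 0) (.of 1) a L := by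
    rintro i e he _ ⟨a, L, g, rfl⟩
    fin_cases i
    · exact ⟨e + a, L, g, by simp [ev, _root_.zpow_add, mul_assoc]⟩
    · by_cases h : L ≠ [] → a ≠ 0
      · exact ⟨0, (e, a) :: L, ⟨he, h, g⟩, by simp [ev, mul_assoc]⟩
      push Not at h
      obtain ⟨h, rfl⟩ := h
      obtain ⟨p, L, rfl⟩ := List.exists_cons_of_ne_nil h
      by_cases k : e + p.1 = 0
      · exact ⟨p.2, L, g.2.2, by simp [ev, ← mul_assoc, ← _root_.zpow_add, k]⟩
      · exact ⟨0, (e + p.1, p.2) :: L, ⟨k, g.2.1, g.2.2⟩, by simp [ev, _root_.zpow_add, mul_assoc]⟩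
  obtain ⟨l, rfl⟩ := Quot.exists_rep w
  induction l with
  | nil => exact ⟨0, [], trivial, by simp [ev]; rfl⟩
  | cons p l ih =>
    obtain ⟨i, _ | _⟩ := p
    · have := step i (-1) (by simp) _ ih
      rw [_root_.zpow_neg_one] at this
      exact this
    · have := step i 1 (by simp) _ ih
      rw [_root_.zpow_one] at this
      exact this

lemma op_ev {G : Type} [Group G] (x y : G) (a : ℤ) (L : List (ℤ × ℤ)) :
    op (ev (.of 0) (.of 1) a L) x y = ev x y a L := by
  simp [op, ev, map_list_prod, Function.comp_def]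

abbrev A := ℤ[X]
abbrev B := A[X]
abbrev S := SpecialLinearGroup (Fin 2) B

noncomputable def lo : Multiplicative A →* S where
  toFun s := ⟨!![1, 0; C s.toAdd, 1], by simp [det_fin_two]⟩
  map_one' := Subtype.ext (by simp [← one_fin_two])
  map_mul' s t := Subtype.ext (by simp)

noncomputable def up : Multiplicative ℤ →* S where
  toFun s := ⟨!![1, C (2 * s.toAdd : A) * X; 0, 1], by simp [det_fin_two]⟩
  map_one' := Subtype.ext (by simp [← one_fin_two])
  map_mul' s t := Subtype.ext (by simp [mul_add, add_mul, add_comm])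

def mat : S →* Matrix (Fin 2) (Fin 2) B where
  toFun g := g.1
  map_one' := rfl
  map_mul' _ _ := rfl

lemma mat_lo (s : A) : mat (lo (.ofAdd s)) = !![1, 0; C s, 1] := rfl
lemma mat_up (s : ℤ) : mat (up (.ofAdd s)) = !![1, C (2 * s : A) * X; 0, 1] := rfl

lemma lo_pow (s : A) (a : ℤ) : lo (.ofAdd s) ^ a = lo (.ofAdd (a * s)) := by
  rw [← map_zpow, ← ofAdd_zsmul, zsmul_eq_mul]

lemma up_pow (a : ℤ) : up (.ofAdd 1) ^ a = up (.ofAdd a) := by
  rw [← map_zpow, ← ofAdd_zsmul]; simp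

def Top (g : S) (d : ℕ) (T : Matrix (Fin 2) (Fin 2) A) : Prop :=
  ∀ i j, (mat g i j).natDegree ≤ d ∧ (mat g i j).coeff d = T i j

lemma Top.mul {g h : S} {d e : ℕ} {T U : Matrix (Fin 2) (Fin 2) A} (a : Top g d T)
    (b : Top h e U) : Top (g * h) (d + e) (T * U) := fun i j => by
  rw [map_mul, Matrix.mul_apply, Matrix.mul_apply, Fin.sum_univ_two,
    Fin.sum_univ_two, coeff_add]
  exact ⟨natDegree_add_le_of_degree_le (natDegree_mul_le_of_le (a _ _).1 (b _ _).1)
    (natDegree_mul_le_of_le (a _ _).1 (b _ _).1), by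
      rw [coeff_mul_add_eq_of_natDegree_le (a _ _).1 (b _ _).1,
        coeff_mul_add_eq_of_natDegree_le (a _ _).1 (b _ _).1, (a _ _).2, (a _ _).2, (b _ _).2,
        (b _ _).2]⟩

lemma top_lo (s : A) : Top (lo (.ofAdd s)) 0 !![1, 0; s, 1] := fun i j => by
  fin_cases i <;> fin_cases j <;> simp [mat_lo]

lemma top_up (b : ℤ) : Top (up (.ofAdd b)) 1 !![0, 2 * b; 0, 0] := fun i j => by
  fin_cases i <;> fin_cases j <;> simp [mat_up, coeff_one, -map_mul, -map_intCast]
  exact (natDegree_C_mul_le _ _).trans natDegree_X_le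

def Nice (g : S) (d : ℕ) (α β : A) : Prop :=
  ∃ c : A, c ≠ 0 ∧ Top g d !![c * β, c; c * α * β, c * α]

lemma Nice.le {g : S} {d e : ℕ} {α β : A} {U : Matrix (Fin 2) (Fin 2) A} (a : Nice g d α β)
    (b : Top g e U) : d ≤ e := by
  obtain ⟨c, h, a⟩ := a
  exact (le_natDegree_of_ne_zero (by rw [(a 0 1).2]; simpa)).trans (b 0 1).1

lemma Nice.left {g : S} {d : ℕ} {α β : A} (a : Nice g d α β) (s : A) :
    Nice (lo (.ofAdd s) * g) d (s + α) β := by
  obtain ⟨c, h, a⟩ := a
  refine ⟨c, h, ?_⟩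
  convert (top_lo s).mul a using 1
  · simp
  · ext i j : 1; fin_cases i <;> fin_cases j <;> simp <;> ring

lemma Nice.right {g : S} {d : ℕ} {α β : A} (a : Nice g d α β) (s : A) :
    Nice (g * lo (.ofAdd s)) d α (β + s) := by
  obtain ⟨c, h, a⟩ := a
  refine ⟨c, h, ?_⟩
  convert a.mul (top_lo s) using 1
  · simp
  ext i j : 1; fin_cases i <;> fin_cases j <;> simp <;> ring

lemma Nice.mul {g h : S} {d e : ℕ} {α β γ δ : A} (a : Nice g d α β) (b : Nice h e γ δ)
    (k : β + γ ≠ 0) : Nice (g * h) (d + e) α δ := by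
  obtain ⟨c, hc, a⟩ := a
  obtain ⟨c', hc', b⟩ := b
  refine ⟨c * c' * (β + γ), by simp [hc, hc', k], ?_⟩
  convert a.mul b using 1
  ext i j : 1; fin_cases i <;> fin_cases j <;> simp <;> ring

lemma blocks (p : A) (P : A → Prop) (hP : ∀ a : ℤ, a ≠ 0 → ∀ β α, P β → P α → β + a * p + α ≠ 0)
    (v : S) (d : ℤ → ℕ) (hv : ∀ b ≠ 0, ∃ α β, P α ∧ P β ∧ Nice (v ^ b) (d b) α β)
    (L : List (ℤ × ℤ)) (hL : Good L) (h : L ≠ []) : ∃ (α β : A) (a : ℤ), P α ∧ P β ∧
      Nice (ev (lo (.ofAdd p)) v 0 L) (L.map fun q => d q.1).sum α (β + a * p) := by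
  induction L with
  | nil => exact (h rfl).elim
  | cons q L ih =>
    obtain ⟨α, β, h1, h2, h3⟩ := hv q.1 hL.1
    have h4 := h3.right (q.2 * p)
    rw [← lo_pow] at h4
    by_cases k : L = []
    · exact ⟨α, β, q.2, h1, h2, by simpa [k, ev] using h4⟩
    · obtain ⟨α', β', a, k1, k2, k3⟩ := ih hL.2.2 k
      exact ⟨α, β', a, h1, k2, by
        simpa [ev] using h4.mul k3 (hP _ (hL.2.1 k) _ _ h2 k1)⟩

lemma upper (s : A) (a : ℤ) (L : List (ℤ × ℤ)) :
    ∃ T, Top (ev (lo (.ofAdd s)) (up (.ofAdd 1)) a L) L.length T := by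
  induction L generalizing a with
  | nil => exact ⟨_, by simpa [ev, lo_pow] using top_lo (a * s)⟩
  | cons q L ih =>
    obtain ⟨T, h⟩ := ih q.2
    have := ((top_lo (a * s)).mul (top_up q.1)).mul h
    rw [← lo_pow, ← up_pow] at this
    exact ⟨_, by simpa [ev, mul_assoc, add_comm] using this⟩

lemma lower (s : A) (hs : s ≠ 0) (a : ℤ) (L : List (ℤ × ℤ)) (hL : Good L) (h : L ≠ []) :
    ∃ b : ℤ, Nice (ev (lo (.ofAdd s)) (up (.ofAdd 1)) a L) L.length (a * s) (b * s) := by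
  obtain ⟨_, _, b, rfl, rfl, k⟩ := blocks s (· = 0) (by rintro a ha _ _ rfl rfl; simp [ha, hs])
    (up (.ofAdd 1)) (fun _ => 1) (fun b hb => ⟨0, 0, rfl, rfl, 2 * b, by simp [hb], by
      simpa [up_pow] using top_up b⟩) L hL h
  exact ⟨b, by simpa [ev, lo_pow] using k.left (a * s)⟩

lemma cheb (g : S) (n : ℕ) : (mat (g ^ n)).trace.natDegree = n * (mat g).trace.natDegree := by
  have ch : mat g * mat g = (mat g).trace • mat g - 1 := by
    have : (mat g).det = 1 := g.2
    rw [det_fin_two] at this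
    ext i j : 1
    fin_cases i <;> fin_cases j <;> simp [mul_apply, trace_fin_two] <;>
      first | ring1 | linear_combination -this
  have r : ∀ n, (mat (g ^ (n + 2))).trace = (mat g).trace * (mat (g ^ (n + 1))).trace - (mat (g ^ n)).trace :=
    fun n => by
      rw [pow_add, sq, pow_succ]
      simp only [map_mul, ch, mul_sub, mul_smul_comm, trace_sub, trace_smul,
        smul_eq_mul, mul_one]
  induction n using Nat.twoStepInduction with
  | zero => simp
  | one => simp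
  | more n h1 h2 =>
    rw [r]
    rcases Nat.eq_zero_or_pos (mat g).trace.natDegree with k | k
    · rw [k, mul_zero] at h1 h2 ⊢
      exact Nat.le_zero.1 ((natDegree_sub_le_of_le (natDegree_mul_le_of_le k.le h2.le) h1.le))
    · have e : ((mat g).trace * (mat (g ^ (n + 1))).trace).natDegree = (n + 2) * (mat g).trace.natDegree := by
        rw [natDegree_mul (ne_zero_of_natDegree_gt k)
          (ne_zero_of_natDegree_gt (n := 0) (by rw [h2]; positivity)), h2]
        ring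
      rw [natDegree_sub_eq_left_of_natDegree_lt (by rw [e, h1]; nlinarith), e]

def Cg (k : ℕ) : Subgroup S where
  carrier := {g | ∃ s, mat g = 1 + (2 : B) ^ k • s}
  mul_mem' := by
    rintro a b ⟨s, hs⟩ ⟨t, ht⟩
    exact ⟨s + mat a * t, by
      rw [map_mul, ht, mul_add, mul_one, mul_smul_comm, smul_add, ← add_assoc,
        ← hs]⟩
  one_mem' := ⟨0, by simp⟩
  inv_mem' := by
    rintro a ⟨s, hs⟩
    refine ⟨-(mat a⁻¹ * s), ?_⟩
    have : mat a⁻¹ * mat a = 1 := by rw [← map_mul, inv_mul_cancel, map_one]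
    rw [hs, mul_add, mul_one, mul_smul_comm] at this
    rw [smul_neg, ← this, add_neg_cancel_right]

lemma Cg_comm (k : ℕ) : ⁅Cg (k + 1), Cg 1⁆ ≤ Cg (k + 2) := Subgroup.commutator_le.2 <| by
  rintro g ⟨s, hs⟩ h ⟨t, ht⟩
  refine ⟨(s * t - t * s) * mat (g⁻¹ * h⁻¹), ?_⟩
  have e : (mat h * mat g) * mat (g⁻¹ * h⁻¹) = 1 := by
    rw [← map_mul, ← map_mul]; simp [mul_assoc]
  have f : mat g * mat h = mat h * mat g + (2 : B) ^ (k + 2) • (s * t - t * s) := by
    rw [hs, ht]
    simp only [mul_add, add_mul, mul_one, one_mul, smul_mul_assoc, mul_smul_comm]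
    module
  rw [commutatorElement_def, mul_assoc, map_mul, map_mul mat g,
    f, add_mul, e, smul_mul_assoc]

lemma Cg_inf (g : S) (h : ∀ k, g ∈ Cg (k + 1)) : g = 1 := by
  refine Subtype.ext (show mat g = 1 from ?_)
  ext i j m l
  have : ∀ k, (2 : ℤ) ^ (k + 1) ∣ (((mat g - 1) i j).coeff m).coeff l := fun k => by
    obtain ⟨s, hs⟩ := h k
    have e : (2 : B) ^ (k + 1) = C (C (2 ^ (k + 1))) := by simp; rfl
    rw [hs, add_sub_cancel_left, Matrix.smul_apply, smul_eq_mul, e, coeff_C_mul, coeff_C_mul]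
    exact Dvd.intro _ rfl
  generalize hz : (((mat g - 1) i j).coeff m).coeff l = z at this
  have z0 : z = 0 := Int.eq_zero_of_dvd_of_natAbs_lt_natAbs (this z.natAbs) (by
    rw [Int.natAbs_pow]
    exact (Nat.lt_succ_self _).trans (Nat.lt_two_pow_self))
  simpa [z0, sub_eq_zero] using hz

def As (w : FreeGroup (Fin 2)) : Prop :=
  ∀ x ∈ Cg 1, ∀ y ∈ Cg 1, ∀ z ∈ Cg 1, op w (op w x y) z = op w x (op w y z)

lemma as_of {w : FreeGroup (Fin 2)} (h : PropN w) : As w := fun x hx y hy z hz => by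
  let φ : FreeGroup (Fin 3) →* S := FreeGroup.lift ![x, y, z]
  have r : (⊤ : Subgroup _).map φ ≤ Cg 1 := by
    rw [← MonoidHom.range_eq_map, FreeGroup.range_lift_eq_closure, Subgroup.closure_le]
    rintro _ ⟨i, rfl⟩
    fin_cases i <;> assumption
  have l : ∀ k, ((⊤ : Subgroup _).lowerCentralSeries k).map φ ≤ Cg (k + 1) := fun k => by
    induction k with
    | zero => exact r
    | succ k ih =>
      rw [Subgroup.lowerCentralSeries_succ, Subgroup.map_commutator]
      exact (Subgroup.commutator_mono ih r).trans (Cg_comm k)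
  rw [← inv_mul_eq_one]
  refine Cg_inf _ fun k => l k ?_
  have := (h 3 (k + 1) (by norm_num) (by omega)).1 (QuotientGroup.mk' _ (.of 0))
    (QuotientGroup.mk' _ (.of 1)) (QuotientGroup.mk' _ (.of 2))
  simp only [← map_op] at this
  exact ⟨_, QuotientGroup.eq.1 this, by simp [map_op, φ]⟩

abbrev Z := Multiplicative ℤ

lemma main {w : FreeGroup (Fin 2)} (h : As w) (ea : op w (.ofAdd 1 : Z) 1 = .ofAdd 1)
    (eb : op w 1 (.ofAdd 1 : Z) = .ofAdd 1) :
    ∃ k l : ℤ, k + l = 1 ∧ w = .of 0 ^ k * .of 1 * .of 0 ^ l := by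
  have q0 : (2 * X : A) ≠ 0 := by simp
  have pw : ∀ {G : Type} [Group G] (x y : G) (b : ℤ), op (w ^ b) x y = op w x y ^ b :=
    fun x y b => map_zpow _ _ _
  choose a L g e using fun b : ℤ => nf (w ^ b)
  have ne : ∀ b ≠ 0, L b ≠ [] := fun b hb k => by
    have := pw 1 (.ofAdd 1 : Z) b
    rw [eb, e, op_ev, k] at this
    exact hb (by simpa [ev] using congrArg Multiplicative.toAdd this.symm)
  set v := op w (lo (.ofAdd (2 * X))) (up (.ofAdd 1)) with hv
  have w1 : w = ev (.of 0) (.of 1) (a 1) (L 1) := by rw [← e, _root_.zpow_one]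
  obtain ⟨α, β, c, -, -, k⟩ := blocks 2 (fun s => s.coeff 0 = 0) (fun a ha β α h1 h2 k => by
      have := congrArg (coeff · 0) k
      simp [h1, h2, ha] at this) v (fun b => (L b).length) (fun b hb => by
      obtain ⟨c, k⟩ := lower _ q0 (a b) (L b) (g b) (ne b hb)
      exact ⟨(a b : A) * (2 * X), (c : A) * (2 * X), by simp, by simp,
        by rwa [hv, ← pw, e, op_ev]⟩) (L 1) (g 1) (ne 1 one_ne_zero)
  have k := k.left (a 1 * 2)
  have := h (lo (.ofAdd 2)) ⟨!![0, 0; 1, 0], by simp [mat_lo, one_fin_two]; rfl⟩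
    (lo (.ofAdd (2 * X))) ⟨!![0, 0; C X, 0], by simp [mat_lo, one_fin_two]; rfl⟩
    (up (.ofAdd 1)) ⟨!![0, X; 0, 0], by simp [mat_up, one_fin_two]; rfl⟩
  rw [← map_op, ← hv, w1, op_ev, op_ev _ v, ← w1] at this
  obtain ⟨T, hT⟩ := upper (op w (.ofAdd 2) (.ofAdd (2 * X) : Multiplicative A)).toAdd (a 1) (L 1)
  rw [ofAdd_toAdd, this] at hT
  have le := k.le (e := (L 1).length) (U := T) (by simpa [ev, lo_pow] using hT)
  obtain ⟨p, L', hp⟩ := List.exists_cons_of_ne_nil (ne 1 one_ne_zero)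
  have g1 := g 1
  rw [hp] at le g1
  have ge : ∀ M : List (ℤ × ℤ), Good M → M.length ≤ (M.map fun q => (L q.1).length).sum :=
    fun M hM => by
      induction M with
      | nil => simp
      | cons q M ih =>
        have := ih hM.2.2
        have := List.length_pos_iff.2 (ne q.1 hM.1)
        simp only [List.length_cons, List.map_cons, List.sum_cons]; omega
  have := ge L' g1.2.2
  have p1 := List.length_pos_iff.2 (ne p.1 g1.1)
  simp only [List.length_cons, List.map_cons, List.sum_cons] at le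
  obtain ⟨r, hr⟩ := List.length_eq_one_iff.1 (show (L p.1).length = 1 by omega)
  have e1 := e p.1
  rw [hr] at e1
  have s1 := pw (.ofAdd 1 : Z) 1 p.1
  have s2 := pw 1 (.ofAdd 1 : Z) p.1
  rw [e1, op_ev] at s1 s2
  rw [ea] at s1
  rw [eb] at s2
  replace s1 : a p.1 + r.2 = p.1 := by simpa [ev, ← ofAdd_zsmul, ← ofAdd_add] using s1
  replace s2 : r.1 = p.1 := by simpa [ev, ← ofAdd_zsmul, ← ofAdd_add] using s2
  have tr : (mat (v ^ p.1)).trace.natDegree = 1 := by
    rw [hv, ← pw, e1, op_ev]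
    have : (mat (ev (lo (.ofAdd (2 * X))) (up (.ofAdd 1)) (a p.1) [r])).trace =
        C (2 * (r.1 : A) * (((a p.1 + r.2 : ℤ) : A) * (2 * X))) * X + C 2 := by
      simp only [ev, List.map_cons, List.map_nil, List.prod_cons, List.prod_nil, lo_pow, up_pow,
        map_mul mat, mat_lo, mat_up, map_one]
      simp [trace_fin_two, show (C 2 : B) = 2 from rfl]
      ring
    rw [this, s1, s2]
    exact natDegree_linear (by simp [g1.1])
  rcases Int.natAbs_eq p.1 with k | k
  · rw [k, _root_.zpow_natCast, cheb] at tr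
    have : p.1 = 1 := by rw [k, Nat.eq_one_of_mul_eq_one_right tr]; rfl
    rw [this] at e1 s1 s2
    exact ⟨_, _, s1, by simpa [ev, s2, mul_assoc] using e1⟩
  · rw [k, _root_.zpow_neg, ← _root_.inv_zpow, _root_.zpow_natCast, cheb] at tr
    have : p.1 = -1 := by rw [k, Nat.eq_one_of_mul_eq_one_right tr]; rfl
    rw [this] at e1 s1 s2
    refine ⟨-r.2, -a (-1), by omega, ?_⟩
    rw [← _root_.inv_inj]
    simpa [ev, s2, mul_assoc] using e1

lemma exps {w : FreeGroup (Fin 2)} (h : PropN w) :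
    op w (.ofAdd 1 : Z) 1 = .ofAdd 1 ∧ op w 1 (.ofAdd 1 : Z) = .ofAdd 1 := by
  obtain ⟨-, e, he, -⟩ := h 2 2 le_rfl one_le_two
  let φ : (FreeGroup (Fin 2) ⧸ (⊤ : Subgroup (FreeGroup (Fin 2))).lowerCentralSeries (2 - 1)) →* Z :=
    QuotientGroup.lift _ (FreeGroup.lift fun _ => .ofAdd 1)
      (Abelianization.commutator_subset_ker _)
  have m : ∀ x y x' y' : Z, op w (x * x') (y * y') = op w x y * op w x' y' := fun x y x' y' => by
    have : FreeGroup.lift ![x * x', y * y'] = FreeGroup.lift ![x, y] * FreeGroup.lift ![x', y'] :=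
      FreeGroup.ext_hom _ _ fun i => by fin_cases i <;> simp
    exact DFunLike.congr_fun this w
  have a1 := congrArg φ (he 1).1
  have a2 := congrArg φ (he 1).2
  have b1 := congrArg φ (he (QuotientGroup.mk (.of 0))).1
  have b2 := congrArg φ (he (QuotientGroup.mk (.of 0))).2
  have c : φ (QuotientGroup.mk (.of 0)) = .ofAdd 1 := FreeGroup.lift_apply_of
  rw [map_op, map_one] at a1 a2
  rw [map_op, c] at b1 b2
  have d1 := m (φ e) 1 1 (.ofAdd 1)
  have d2 := m 1 (φ e) (.ofAdd 1) 1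
  simp only [mul_one, one_mul, a1, a2, b1, b2] at d1 d2
  exact ⟨d2.symm, d1.symm⟩

theorem result (w : FreeGroup (Fin 2)) :
    PropN w ↔ w = .of 0 * .of 1 ∨ w = .of 1 * .of 0 := by
  constructor
  swap
  · rintro (rfl | rfl) n k _ _
    · exact ⟨fun x y z => by simp [op, mul_assoc], 1, by simp [op], fun x => ⟨x⁻¹, by simp [op]⟩⟩
    · exact ⟨fun x y z => by simp [op, mul_assoc], 1, by simp [op], fun x => ⟨x⁻¹, by simp [op]⟩⟩
  intro h
  obtain ⟨ea, eb⟩ := exps h
  have sw : ∀ {G : Type} [Group G] (x y : G), op (op w (.of 1) (.of 0)) x y = op w y x :=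
    fun x y => (map_op (FreeGroup.lift ![x, y]) w _ _).trans (by simp)
  obtain ⟨k, l, s, e⟩ := main (as_of h) ea eb
  obtain ⟨k', l', -, e'⟩ := main (w := op w (.of 1) (.of 0)) (fun x hx y hy z hz => by
    simp only [sw]; exact (as_of h z hz y hy x hx).symm) (by rw [sw, eb]) (by rw [sw, ea])
  by_cases k0 : k = 0
  · right; rw [e, k0, show l = 1 by omega]; simp
  by_cases l0 : l = 0
  · left; rw [e, l0, show k = 1 by omega]; simp
  obtain ⟨b, hb⟩ := lower 1 one_ne_zero 0 [(k, 1), (l, 0)] ⟨k0, by simp, l0, by simp, trivial⟩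
    (by simp)
  obtain ⟨T, hT⟩ := upper 1 k' [(1, l')]
  have e2 : ∀ x y : S, ev x y 0 [(k, 1), (l, 0)] = ev x y k' [(1, l')] := fun x y => by
    have := sw x y
    rw [e'] at this
    rw [e] at this
    simpa [ev, op, mul_assoc] using this.symm
  rw [← e2] at hT
  exact absurd (hb.le hT) (by simp)

end Pool.Agent.Results.MP_c4ae4c_al.Only
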